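import Pool.Agent.H172R2.ZS.GAU

/-!
# Zonoid Spencer: cover of a ball by translates of the zonotope (`S_CVR`)
-/

set_option autoImplicit false

open Finset MeasureTheory
open scoped RealInnerProductSpace

namespace Pool.Agent.Run7.h931.ZS

open Pool.Agent.H172R2.ZS

/-- the translate of the scaled zonotope -/
def Tr {d m : ℕ} (c : Fin m → ℝ) (a : Fin m → E d) (r : ℝ) (z : E d) : Set (E d) :=
  {x : E d | ∃ y ∈ Zon (fun j => c j • a j), x = z + r • y}

theorem Zon_compact {d m : ℕ} (u : Fin m → E d) : IsCompact (Zon u) := by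
  have h : Zon u = (fun t : Fin m → ℝ => ∑ j, t j • u j) ''
      (Set.univ.pi fun _ => Set.Icc (-1 : ℝ) 1) := by
    ext x
    constructor
    · rintro ⟨t, ht, rfl⟩
      exact ⟨t, fun j _ => ht j, rfl⟩
    · rintro ⟨t, ht, rfl⟩
      exact ⟨t, fun j => ht j (Set.mem_univ _), rfl⟩
  rw [h]
  apply IsCompact.image (isCompact_univ_pi fun _ => isCompact_Icc)
  fun_prop

theorem Tr_meas {d m : ℕ} (c : Fin m → ℝ) (a : Fin m → E d) (r : ℝ) (z : E d) :
    MeasurableSet (Tr c a r z) := by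
  have h : Tr c a r z = (fun y : E d => z + r • y) '' Zon (fun j => c j • a j) := by
    ext x
    constructor
    · rintro ⟨y, hy, rfl⟩
      exact ⟨y, hy, rfl⟩
    · rintro ⟨y, hy, rfl⟩
      exact ⟨y, hy, rfl⟩
  rw [h]
  apply IsCompact.measurableSet
  apply IsCompact.image (Zon_compact _)
  fun_prop

theorem CVR_ok (hG : S_GAU) : S_CVR := by
  classical
  intro d m c a hL ρ r hρ hr
  set g : E d → ℝ := fun x => Real.exp (-‖x‖ ^ 2 / 2) with hg
  have hgi : Integrable g := GAUaux.integrable_gauss d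
  have hpos : 0 < ∫ x, g x := integral_exp_pos hgi
  set N : ℝ := Real.exp (ρ ^ 2 / 2 + 9 * d / (8 * r ^ 2)) with hN
  -- admissible sets
  let P : Finset (E d) → Prop := fun F => (∀ z ∈ F, ‖z‖ ≤ ρ) ∧
    Set.Pairwise (F : Set (E d)) (Function.onFun Disjoint (Tr c a r))
  have hbound : ∀ F, P F → (F.card : ℝ) ≤ N := by
    intro F hF
    have h1 : ∫ x in ⋃ z ∈ F, Tr c a r z, g x = ∑ z ∈ F, ∫ x in Tr c a r z, g x :=
      integral_biUnion_finset F (fun z _ => Tr_meas c a r z) hF.2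
        (fun z _ => hgi.integrableOn)
    have h2 : ∫ x in ⋃ z ∈ F, Tr c a r z, g x ≤ ∫ x, g x :=
      setIntegral_le_integral hgi (Filter.Eventually.of_forall fun x => (Real.exp_pos _).le)
    have h3 : ∀ z ∈ F, N⁻¹ * ∫ x, g x ≤ ∫ x in Tr c a r z, g x := by
      intro z hz
      refine le_trans ?_ (hG d m c a hL r z hr)
      apply mul_le_mul_of_nonneg_right _ hpos.le
      rw [hN, ← Real.exp_neg]
      apply Real.exp_le_exp.2
      have h4 : ‖z‖ ^ 2 ≤ ρ ^ 2 := by
        have := hF.1 z hz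
        have h0 := norm_nonneg z
        nlinarith
      linarith
    have h5 := Finset.sum_le_sum h3
    rw [Finset.sum_const, nsmul_eq_mul, ← h1] at h5
    have h6 := h5.trans h2
    have hNp : 0 < N := Real.exp_pos _
    have h7 : (F.card : ℝ) * N⁻¹ ≤ 1 := by
      by_contra hcon
      push Not at hcon
      have : 1 * ∫ x, g x < ((F.card : ℝ) * N⁻¹) * ∫ x, g x := by
        exact mul_lt_mul_of_pos_right hcon hpos
      linarith
    calc (F.card : ℝ) = (F.card * N⁻¹) * N := by field_simp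
      _ ≤ 1 * N := mul_le_mul_of_nonneg_right h7 hNp.le
      _ = N := one_mul _
  let S : Set ℕ := {k | ∃ F, P F ∧ F.card = k}
  have hne : S.Nonempty := ⟨0, ∅, ⟨by simp, by simp⟩, rfl⟩
  have hbd : BddAbove S := by
    refine ⟨⌈N⌉₊, ?_⟩
    rintro k ⟨F, hF, rfl⟩
    have h8 := hbound F hF
    have h9 := Nat.le_ceil N
    exact_mod_cast h8.trans h9
  obtain ⟨F, hF, hcard⟩ := Nat.sSup_mem hne hbd
  refine ⟨F, hbound F hF, ?_⟩
  intro x hx
  by_cases hxF : x ∈ F
  · exact ⟨x, hxF, fun _ => 0, fun j => by simp; positivity, by simp⟩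
  -- maximality
  have hnot : ¬ P (insert x F) := by
    intro hP
    have h10 : (insert x F).card ∈ S := ⟨_, hP, rfl⟩
    have h11 := le_csSup hbd h10
    rw [Finset.card_insert_of_notMem hxF, ← hcard] at h11
    omega
  have hex : ∃ y ∈ F, ¬ Disjoint (Tr c a r x) (Tr c a r y) := by
    by_contra hcon
    push Not at hcon
    apply hnot
    refine ⟨?_, ?_⟩
    · intro z hz
      rcases Finset.mem_insert.1 hz with rfl | hz
      · exact hx
      · exact hF.1 z hz
    · rw [Finset.coe_insert]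
      rw [Set.pairwise_insert]
      exact ⟨hF.2, fun y hy _ => ⟨hcon y hy, (hcon y hy).symm⟩⟩
  obtain ⟨y, hy, hdis⟩ := hex
  rw [Set.not_disjoint_iff] at hdis
  obtain ⟨w, ⟨p, ⟨s, hs, rfl⟩, hw1⟩, ⟨q, ⟨t, ht, rfl⟩, hw2⟩⟩ := hdis
  refine ⟨y, hy, fun j => r * (t j - s j), ?_, ?_⟩
  · intro j
    rw [abs_mul, abs_of_pos hr]
    have h12 : |t j - s j| ≤ 2 := by
      obtain ⟨h1, h2⟩ := hs j
      obtain ⟨h3, h4⟩ := ht j
      rw [abs_le]
      constructor <;> linarith
    nlinarith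
  · have h13 : x - y = r • (∑ j, t j • c j • a j) - r • (∑ j, s j • c j • a j) := by
      have : x + r • (∑ j, s j • c j • a j) = y + r • (∑ j, t j • c j • a j) := by
        rw [← hw1, ← hw2]
      rw [sub_eq_sub_iff_add_eq_add]
      rw [this, add_comm]
    rw [h13, ← smul_sub, ← Finset.sum_sub_distrib, Finset.smul_sum]
    apply Finset.sum_congr rfl
    intro j _
    rw [← sub_smul, smul_smul, smul_smul]
    congr 1
    ring

end Pool.Agent.Run7.h931.ZS
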