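import Pool.Agent.H172R2.ZS.Defs

/-!
# Zonoid Spencer: the sixth moment of a Rademacher sum (`S_M6`)
-/

set_option autoImplicit false

open Finset

namespace Pool.Agent.Run7.h931.ZS

open Pool.Agent.H172R2.ZS

theorem sum_cons {n : ℕ} (F : (Fin (n + 1) → Bool) → ℝ) :
    ∑ ε, F ε = ∑ ε : Fin n → Bool, (F (Fin.cons true ε) + F (Fin.cons false ε)) := by
  rw [← (Fin.consEquiv (fun _ : Fin (n + 1) => Bool)).sum_comp F, Fintype.sum_prod_type,
    Fintype.sum_bool, ← Finset.sum_add_distrib]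
  rfl

theorem mom : ∀ (n : ℕ) (f : Fin n → ℝ), (∀ i, |f i| ≤ 1) →
    ∑ ε : Fin n → Bool, (∑ i, sg (ε i) * f i) ^ 2 ≤ 2 ^ n * (n : ℝ) ∧
    ∑ ε : Fin n → Bool, (∑ i, sg (ε i) * f i) ^ 4 ≤ 2 ^ n * (3 * (n : ℝ) ^ 2) ∧
    ∑ ε : Fin n → Bool, (∑ i, sg (ε i) * f i) ^ 6 ≤ 2 ^ n * (15 * (n : ℝ) ^ 3) := by
  intro n
  induction n with
  | zero =>
    intro f _
    simp
  | succ n ih =>
    intro f hf
    obtain ⟨h2, h4, h6⟩ := ih (fun i => f i.succ) (fun i => hf _)
    have hx : f 0 ^ 2 ≤ 1 := by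
      have := hf 0
      rw [abs_le] at this
      nlinarith
    have hx0 : 0 ≤ f 0 ^ 2 := sq_nonneg _
    set x := f 0 with hxd
    have hs : ∀ (b : Bool) (ε : Fin n → Bool),
        ∑ i, sg ((Fin.cons b ε : Fin (n + 1) → Bool) i) * f i =
          sg b * x + ∑ i : Fin n, sg (ε i) * f i.succ := by
      intro b ε
      rw [Fin.sum_univ_succ]
      simp [hxd]
    have hn : (0 : ℝ) ≤ n := Nat.cast_nonneg n
    have h2n : (0 : ℝ) < 2 ^ n := by positivity
    have hcard : ∑ _ε : Fin n → Bool, (1 : ℝ) = 2 ^ n := by simp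
    have hst : sg true = 1 := rfl
    have hsf : sg false = -1 := rfl
    have h2p : 0 ≤ ∑ ε : Fin n → Bool, (∑ i : Fin n, sg (ε i) * f i.succ) ^ 2 :=
      Finset.sum_nonneg fun _ _ => by positivity
    have h4p : 0 ≤ ∑ ε : Fin n → Bool, (∑ i : Fin n, sg (ε i) * f i.succ) ^ 4 :=
      Finset.sum_nonneg fun _ _ => by positivity
    refine ⟨?_, ?_, ?_⟩
    · rw [sum_cons]
      have : ∀ ε : Fin n → Bool,
          (∑ i, sg ((Fin.cons true ε : Fin (n + 1) → Bool) i) * f i) ^ 2 +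
          (∑ i, sg ((Fin.cons false ε : Fin (n + 1) → Bool) i) * f i) ^ 2 =
          2 * (∑ i : Fin n, sg (ε i) * f i.succ) ^ 2 + 2 * x ^ 2 * 1 := by
        intro ε
        rw [hs, hs, hst, hsf]; ring
      rw [Finset.sum_congr rfl fun ε _ => this ε, Finset.sum_add_distrib, ← Finset.mul_sum,
        ← Finset.mul_sum, hcard]
      push_cast
      have e : (2 : ℝ) ^ (n + 1) = 2 * 2 ^ n := by ring
      rw [e]
      nlinarith
    · rw [sum_cons]
      have : ∀ ε : Fin n → Bool,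
          (∑ i, sg ((Fin.cons true ε : Fin (n + 1) → Bool) i) * f i) ^ 4 +
          (∑ i, sg ((Fin.cons false ε : Fin (n + 1) → Bool) i) * f i) ^ 4 =
          2 * (∑ i : Fin n, sg (ε i) * f i.succ) ^ 4 +
            12 * x ^ 2 * (∑ i : Fin n, sg (ε i) * f i.succ) ^ 2 + 2 * x ^ 4 * 1 := by
        intro ε
        rw [hs, hs, hst, hsf]; ring
      rw [Finset.sum_congr rfl fun ε _ => this ε, Finset.sum_add_distrib,
        Finset.sum_add_distrib, ← Finset.mul_sum, ← Finset.mul_sum, ← Finset.mul_sum, hcard]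
      push_cast
      have e : (2 : ℝ) ^ (n + 1) = 2 * 2 ^ n := by ring
      rw [e]
      have hx4 : x ^ 4 ≤ 1 := by
        have : x ^ 4 = x ^ 2 * x ^ 2 := by ring
        rw [this]; nlinarith
      have t1 : 12 * x ^ 2 * ∑ ε : Fin n → Bool, (∑ i : Fin n, sg (ε i) * f i.succ) ^ 2 ≤
          12 * (2 ^ n * (n : ℝ)) := by
        have := mul_le_mul hx h2 h2p zero_le_one
        linarith
      nlinarith [mul_nonneg h2n.le hn]
    · rw [sum_cons]
      have : ∀ ε : Fin n → Bool,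
          (∑ i, sg ((Fin.cons true ε : Fin (n + 1) → Bool) i) * f i) ^ 6 +
          (∑ i, sg ((Fin.cons false ε : Fin (n + 1) → Bool) i) * f i) ^ 6 =
          2 * (∑ i : Fin n, sg (ε i) * f i.succ) ^ 6 +
            30 * x ^ 2 * (∑ i : Fin n, sg (ε i) * f i.succ) ^ 4 +
            30 * x ^ 4 * (∑ i : Fin n, sg (ε i) * f i.succ) ^ 2 + 2 * x ^ 6 * 1 := by
        intro ε
        rw [hs, hs, hst, hsf]; ring
      rw [Finset.sum_congr rfl fun ε _ => this ε, Finset.sum_add_distrib,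
        Finset.sum_add_distrib, Finset.sum_add_distrib, ← Finset.mul_sum, ← Finset.mul_sum,
        ← Finset.mul_sum, ← Finset.mul_sum, hcard]
      push_cast
      have e : (2 : ℝ) ^ (n + 1) = 2 * 2 ^ n := by ring
      rw [e]
      have hx4 : x ^ 4 ≤ 1 := by
        have : x ^ 4 = x ^ 2 * x ^ 2 := by ring
        rw [this]; nlinarith
      have hx6 : x ^ 6 ≤ 1 := by
        have : x ^ 6 = x ^ 2 * x ^ 4 := by ring
        rw [this]
        have h0 : 0 ≤ x ^ 4 := by positivity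
        nlinarith
      have t1 : 30 * x ^ 2 * ∑ ε : Fin n → Bool, (∑ i : Fin n, sg (ε i) * f i.succ) ^ 4 ≤
          30 * (2 ^ n * (3 * (n : ℝ) ^ 2)) := by
        have := mul_le_mul hx h4 h4p zero_le_one
        linarith
      have t2 : 30 * x ^ 4 * ∑ ε : Fin n → Bool, (∑ i : Fin n, sg (ε i) * f i.succ) ^ 2 ≤
          30 * (2 ^ n * (n : ℝ)) := by
        have := mul_le_mul hx4 h2 h2p zero_le_one
        linarith
      nlinarith [mul_nonneg h2n.le hn, mul_nonneg h2n.le (mul_nonneg hn hn)]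

theorem M6_ok : S_M6 := by
  intro J _ _ f hf
  have e := Fintype.equivFin J
  have h := (mom (Fintype.card J) (fun i => f (e.symm i)) (fun i => hf _)).2.2
  have key : ∑ ε : J → Bool, (∑ g, sg (ε g) * f g) ^ 6 =
      ∑ ε : Fin (Fintype.card J) → Bool, (∑ i, sg (ε i) * f (e.symm i)) ^ 6 := by
    apply Fintype.sum_equiv (Equiv.arrowCongr e (Equiv.refl Bool))
    intro ε
    congr 1
    apply Fintype.sum_equiv e
    intro g
    simp
  rw [key]
  exact h

end Pool.Agent.Run7.h931.ZS
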