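import Pool.Agent.H172R2.ZS.Defs

/-!
# Zonoid Spencer: full colouring in Lewis position (`S_MAIN`)
-/

set_option autoImplicit false

open Finset
open scoped RealInnerProductSpace

namespace Pool.Agent.Run7.h931.ZS

open Pool.Agent.H172R2.ZS

theorem rpow_step (n n' : ℝ) (hn : 0 ≤ n') (h : n' ≤ 9 / 10 * n) :
    n' ^ (1 / 6 : ℝ) ≤ 983 / 1000 * n ^ (1 / 6 : ℝ) := by
  have hn0 : 0 ≤ n := by linarith
  have h1 : n' ^ (1 / 6 : ℝ) ≤ ((983 / 1000 : ℝ) ^ (6 : ℕ) * n) ^ (1 / 6 : ℝ) := by
    apply Real.rpow_le_rpow hn _ (by norm_num)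
    refine h.trans ?_
    apply mul_le_mul_of_nonneg_right _ hn0
    norm_num
  refine h1.trans (le_of_eq ?_)
  rw [Real.mul_rpow (by norm_num) hn0]
  congr 1
  have := Real.pow_rpow_inv_natCast (x := (983 / 1000 : ℝ)) (n := 6) (by norm_num) (by norm_num)
  norm_num at this ⊢

theorem sum_ext {V : Type} [AddCommGroup V] [Module ℝ V] {J : Type} [Fintype J]
    (p : J → Prop) [DecidablePred p] (e : {g // p g} → ℝ) (u : J → V) :
    ∑ g, (if h : p g then e ⟨g, h⟩ else 0) • u g = ∑ g : {g // p g}, e g • u g := by
  rw [← Fintype.sum_subtype_add_sum_subtype p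
    (fun g => (if h : p g then e ⟨g, h⟩ else 0) • u g)]
  have h2 : ∑ i : {x // ¬ p x}, (if h : p i.1 then e ⟨i.1, h⟩ else 0) • u i.1 = 0 := by
    apply Finset.sum_eq_zero
    intro i _
    rw [dif_neg i.2, zero_smul]
  rw [h2, add_zero]
  apply Finset.sum_congr rfl
  intro i _
  rw [dif_pos i.2]

theorem MAIN_ok (hP : S_PC) : S_MAIN := by
  classical
  refine ⟨1600, by norm_num, ?_⟩
  intro d m c a hL
  have key : ∀ (n : ℕ) (J : Type) [Fintype J] [DecidableEq J] (f : J → Fin m → ℝ),
      Fintype.card J = n → Fintype.card J ≤ d → (∀ g j, |f g j| ≤ 1) →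
      ∃ ε : J → ℝ, (∀ g, ε g = 1 ∨ ε g = -1) ∧
      ∃ t : Fin m → ℝ,
        (∀ j, |t j| ≤ 1600 * (d : ℝ) ^ (1 / 3 : ℝ) * (Fintype.card J : ℝ) ^ (1 / 6 : ℝ)) ∧
        ∑ g, ε g • ∑ j, (c j * f g j) • a j = ∑ j, (c j * t j) • a j := by
    intro n
    induction n using Nat.strong_induction_on with
    | _ n ih =>
      intro J _ _ f hn hd hf
      rcases lt_or_ge n 4 with h4 | h4
      · refine ⟨fun _ => 1, fun _ => Or.inl rfl, fun j => ∑ g, f g j, ?_, ?_⟩
        · intro j
          have h1 : |∑ g, f g j| ≤ Fintype.card J := by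
            calc |∑ g, f g j| ≤ ∑ g, |f g j| := Finset.abs_sum_le_sum_abs _ _
              _ ≤ ∑ _g : J, (1 : ℝ) := Finset.sum_le_sum fun g _ => hf g j
              _ = Fintype.card J := by simp
          refine h1.trans ?_
          rcases Nat.eq_zero_or_pos n with h0 | h0
          · rw [hn, h0]
            simp only [Nat.cast_zero]
            positivity
          · have hd1 : (1 : ℝ) ≤ d := by
              exact_mod_cast (by omega : 1 ≤ d)
            have hn1 : (1 : ℝ) ≤ Fintype.card J := by
              rw [hn]; exact_mod_cast h0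
            have hn3 : (Fintype.card J : ℝ) ≤ 3 := by
              rw [hn]; exact_mod_cast (by omega : n ≤ 3)
            have h2 : 1 ≤ (d : ℝ) ^ (1 / 3 : ℝ) := Real.one_le_rpow hd1 (by norm_num)
            have h3 : 1 ≤ (Fintype.card J : ℝ) ^ (1 / 6 : ℝ) := Real.one_le_rpow hn1 (by norm_num)
            nlinarith
        · simp only [one_smul]
          rw [Finset.sum_comm]
          apply Finset.sum_congr rfl
          intro j _
          rw [Finset.mul_sum, Finset.sum_smul]
      · obtain ⟨x, hx, hcard, t, ht, hsum⟩ := hP d m c a hL J f (by omega) hd hf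
        have hc1 : (Fintype.card {g // x g = 0} : ℝ) + ((univ.filter fun g => x g ≠ 0).card : ℝ) =
            Fintype.card J := by
          rw [Fintype.card_subtype]
          have := Finset.card_filter_add_card_filter_not
            (s := (univ : Finset J)) (fun g => x g = 0)
          rw [Finset.card_univ] at this
          exact_mod_cast this
        have hJ' : (Fintype.card {g // x g = 0} : ℝ) ≤ 9 / 10 * (Fintype.card J : ℝ) := by
          linarith
        have hlt : Fintype.card {g // x g = 0} < n := by
          have : (Fintype.card {g // x g = 0} : ℝ) < n := by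
            refine lt_of_le_of_lt hJ' ?_
            rw [hn]
            have : (4 : ℝ) ≤ n := by exact_mod_cast h4
            linarith
          exact_mod_cast this
        obtain ⟨e, he, t', ht', hsum'⟩ := ih _ hlt {g // x g = 0} (fun g => f g.1) rfl
          (by omega) (fun g j => hf g.1 j)
        refine ⟨fun g => if h : x g = 0 then e ⟨g, h⟩ else x g, ?_, fun j => t j + t' j, ?_, ?_⟩
        · intro g
          by_cases h : x g = 0
          · simp only [h, dite_true]
            exact he _
          · simp only [h, dite_false]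
            rcases hx g with h1 | h1
            · exact absurd h1 h
            · exact h1
        · intro j
          have h1 := ht j
          have h2 := ht' j
          have h3 := rpow_step (Fintype.card J : ℝ) _ (Nat.cast_nonneg _) hJ'
          have h5 : 0 ≤ (d : ℝ) ^ (1 / 3 : ℝ) := by positivity
          have h6 : 0 ≤ (Fintype.card J : ℝ) ^ (1 / 6 : ℝ) := by positivity
          unfold sc at h1
          calc |t j + t' j| ≤ |t j| + |t' j| := abs_add_le _ _
            _ ≤ 3 * (9 * (d : ℝ) ^ (1 / 3 : ℝ) * (Fintype.card J : ℝ) ^ (1 / 6 : ℝ)) +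
                1600 * (d : ℝ) ^ (1 / 3 : ℝ) *
                  (Fintype.card {g // x g = 0} : ℝ) ^ (1 / 6 : ℝ) := add_le_add h1 h2
            _ ≤ 3 * (9 * (d : ℝ) ^ (1 / 3 : ℝ) * (Fintype.card J : ℝ) ^ (1 / 6 : ℝ)) +
                1600 * (d : ℝ) ^ (1 / 3 : ℝ) *
                  (983 / 1000 * (Fintype.card J : ℝ) ^ (1 / 6 : ℝ)) := by
                  have := mul_le_mul_of_nonneg_left h3
                    (by positivity : 0 ≤ 1600 * (d : ℝ) ^ (1 / 3 : ℝ))
                  linarith
            _ ≤ 1600 * (d : ℝ) ^ (1 / 3 : ℝ) * (Fintype.card J : ℝ) ^ (1 / 6 : ℝ) := by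
                  have := mul_nonneg h5 h6
                  nlinarith
        · have e1 : ∀ g, (if h : x g = 0 then e ⟨g, h⟩ else x g) • ∑ j, (c j * f g j) • a j =
              x g • ∑ j, (c j * f g j) • a j +
              (if h : x g = 0 then e ⟨g, h⟩ else 0) • ∑ j, (c j * f g j) • a j := by
            intro g
            rw [← add_smul]
            congr 1
            by_cases h : x g = 0
            · simp only [h, dite_true, zero_add]
            · simp only [h, dite_false, add_zero]
          rw [Finset.sum_congr rfl fun g _ => e1 g, Finset.sum_add_distrib, hsum,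
            sum_ext (fun g => x g = 0) e (fun g => ∑ j, (c j * f g j) • a j), hsum',
            ← Finset.sum_add_distrib]
          apply Finset.sum_congr rfl
          intro j _
          rw [mul_add, add_smul]
  intro J _ _ f hd hf
  exact key _ J f rfl hd hf

end Pool.Agent.Run7.h931.ZS
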