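import Pool.Agent.H172R2.ZS.Defs

/-!
# Zonoid Spencer: partial colouring (`S_PC`)
-/

set_option autoImplicit false

open Finset
open scoped RealInnerProductSpace

namespace Pool.Agent.Run7.h931.ZS

open Pool.Agent.H172R2.ZS

/-- truncation at level `s` -/
noncomputable def tau (s y : ℝ) : ℝ := max (-s) (min s y)

theorem tau_abs {s : ℝ} (hs : 0 < s) (y : ℝ) : |tau s y| ≤ s := by
  unfold tau
  rw [abs_le]
  constructor
  · exact le_max_left _ _
  · apply max_le
    · linarith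
    · exact min_le_left _ _

theorem cubic {s y : ℝ} (hs : 0 < s) (hy : s ≤ y) : 45 * s ^ 4 * (y - s) ^ 2 ≤ y ^ 6 := by
  have h1 : 27 / 4 * s ^ 2 * (y - s) ≤ y ^ 3 := by
    have : 0 ≤ (y - 3 / 2 * s) ^ 2 * (y + 3 * s) := by
      apply mul_nonneg (sq_nonneg _)
      linarith
    nlinarith [this]
  have h0 : 0 ≤ 27 / 4 * s ^ 2 * (y - s) := by
    apply mul_nonneg (by positivity)
    linarith
  have h2 := mul_le_mul h1 h1 h0 (h0.trans h1)
  have h3 : 0 ≤ s ^ 4 * (y - s) ^ 2 := by positivity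
  calc 45 * s ^ 4 * (y - s) ^ 2 ≤ 27 / 4 * s ^ 2 * (y - s) * (27 / 4 * s ^ 2 * (y - s)) := by
        nlinarith
    _ ≤ y ^ 3 * y ^ 3 := h2
    _ = y ^ 6 := by ring

theorem tau_rem {s : ℝ} (hs : 0 < s) (y : ℝ) :
    (y - tau s y) ^ 2 ≤ y ^ 6 / (45 * s ^ 4) := by
  rw [le_div_iff₀ (by positivity)]
  unfold tau
  rcases le_or_gt s y with h | h
  · rw [min_eq_left h, max_eq_right (by linarith)]
    have := cubic hs h
    linarith
  · rw [min_eq_right h.le]
    rcases le_or_gt (-s) y with h2 | h2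
    · rw [max_eq_right h2]
      have : 0 ≤ y ^ 6 := by positivity
      simpa using this
    · rw [max_eq_left h2.le]
      have := cubic hs (y := -y) (by linarith)
      have e1 : (-y) ^ 6 = y ^ 6 := by ring
      have e2 : (-y - s) ^ 2 = (y - -s) ^ 2 := by ring
      rw [e1, e2] at this
      linarith

/-- the linear map -/
noncomputable def Lam {d m : ℕ} (c : Fin m → ℝ) (a : Fin m → E d) (x : Fin m → ℝ) : E d :=
  ∑ j, (c j * x j) • a j

theorem Lam_add {d m : ℕ} (c : Fin m → ℝ) (a : Fin m → E d) (x y : Fin m → ℝ) :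
    Lam c a (fun j => x j + y j) = Lam c a x + Lam c a y := by
  unfold Lam
  rw [← Finset.sum_add_distrib]
  apply Finset.sum_congr rfl
  intro j _
  rw [mul_add, add_smul]

theorem Lam_sub {d m : ℕ} (c : Fin m → ℝ) (a : Fin m → E d) (x y : Fin m → ℝ) :
    Lam c a (fun j => x j - y j) = Lam c a x - Lam c a y := by
  unfold Lam
  rw [← Finset.sum_sub_distrib]
  apply Finset.sum_congr rfl
  intro j _
  rw [mul_sub, sub_smul]

theorem Lam_smul {d m : ℕ} (c : Fin m → ℝ) (a : Fin m → E d) (b : ℝ) (x : Fin m → ℝ) :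
    Lam c a (fun j => b * x j) = b • Lam c a x := by
  unfold Lam
  rw [Finset.smul_sum]
  apply Finset.sum_congr rfl
  intro j _
  rw [smul_smul]
  congr 1
  ring

theorem Lam_sum {d m : ℕ} {J : Type} [Fintype J] (c : Fin m → ℝ) (a : Fin m → E d) (x : J → ℝ)
    (f : J → Fin m → ℝ) : ∑ g, x g • Lam c a (f g) = Lam c a (fun j => ∑ g, x g * f g j) := by
  unfold Lam
  simp_rw [Finset.smul_sum]
  rw [Finset.sum_comm]
  apply Finset.sum_congr rfl
  intro j _
  rw [Finset.mul_sum, Finset.sum_smul]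
  apply Finset.sum_congr rfl
  intro g _
  rw [smul_smul]
  congr 1
  ring

theorem sc_pow {k d : ℕ} : sc k d ^ 6 = 531441 * (d : ℝ) ^ 2 * k := by
  unfold sc
  have h1 : ((d : ℝ) ^ (1 / 3 : ℝ)) ^ 6 = (d : ℝ) ^ 2 := by
    rw [← Real.rpow_natCast, ← Real.rpow_mul (Nat.cast_nonneg d)]
    norm_num
  have h2 : ((k : ℝ) ^ (1 / 6 : ℝ)) ^ 6 = (k : ℝ) := by
    rw [← Real.rpow_natCast, ← Real.rpow_mul (Nat.cast_nonneg k)]
    norm_num
  rw [mul_pow, mul_pow, h1, h2]
  norm_num

theorem sg_sub (x y : Bool) : (sg x - sg y) / 2 = 0 ∨ (sg x - sg y) / 2 = 1 ∨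
    (sg x - sg y) / 2 = -1 := by
  cases x <;> cases y <;> norm_num [sg]

theorem sg_sub_ne (x y : Bool) (h : x ≠ y) : (sg x - sg y) / 2 ≠ 0 := by
  revert h
  cases x <;> cases y <;> norm_num [sg]

theorem PC_ok (hM : S_M6) (hB : S_BAS) (hC : S_CVR) (hH : S_HAM) : S_PC := by
  classical
  intro d m c a hL J _ _ f h4 hJd hf
  obtain ⟨hsum, _, hnorm⟩ := hB d m c a hL
  set k := Fintype.card J with hk
  set K : ℝ := (k : ℝ) with hKd
  set D : ℝ := (d : ℝ) with hDd
  have hK : 4 ≤ K := by rw [hKd]; exact_mod_cast h4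
  have hD : K ≤ D := by rw [hKd, hDd]; exact_mod_cast hJd
  have hK0 : 0 < K := by linarith
  have hD0 : 0 < D := by linarith
  set s : ℝ := sc k d with hsd
  have hs6 : s ^ 6 = 531441 * D ^ 2 * K := sc_pow
  have hs : 0 < s := by
    rw [hsd]; unfold sc; positivity
  -- the coordinates
  let F : (J → Bool) → Fin m → ℝ := fun ε j => ∑ g, sg (ε g) * f g j
  let Φ : (J → Bool) → ℝ := fun ε => ∑ j, c j * F ε j ^ 6
  have hΦ0 : ∀ ε, 0 ≤ Φ ε := fun ε =>
    Finset.sum_nonneg fun j _ => mul_nonneg (hL.1 j) (by positivity)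
  have hΦ : ∑ ε, Φ ε ≤ 2 ^ k * (15 * K ^ 3) * D := by
    have h1 : ∑ ε, Φ ε = ∑ j, c j * ∑ ε, F ε j ^ 6 := by
      simp only [Φ]
      rw [Finset.sum_comm]
      apply Finset.sum_congr rfl
      intro j _
      rw [Finset.mul_sum]
    rw [h1]
    calc ∑ j, c j * ∑ ε, F ε j ^ 6 ≤ ∑ j, c j * (2 ^ k * (15 * K ^ 3)) := by
          apply Finset.sum_le_sum
          intro j _
          apply mul_le_mul_of_nonneg_left _ (hL.1 j)
          exact hM J (fun g => f g j) (fun g => hf g j)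
      _ = 2 ^ k * (15 * K ^ 3) * D := by
          rw [← Finset.sum_mul, hsum]; ring
  let G : Finset (J → Bool) := univ.filter (fun ε => Φ ε ≤ 30 * K ^ 3 * D)
  have hcardall : ((univ : Finset (J → Bool)).card : ℝ) = 2 ^ k := by
    simp [hk]
  have hG : (2 : ℝ) ^ k / 2 ≤ G.card := by
    have h1 : (G.card : ℝ) + ((univ.filter (fun ε => ¬ Φ ε ≤ 30 * K ^ 3 * D)).card : ℝ) = 2 ^ k := by
      rw [← hcardall]
      have := Finset.card_filter_add_card_filter_not
        (s := (univ : Finset (J → Bool))) (fun ε => Φ ε ≤ 30 * K ^ 3 * D)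
      simp only [G]
      exact_mod_cast this
    have h2 : ((univ.filter (fun ε => ¬ Φ ε ≤ 30 * K ^ 3 * D)).card : ℝ) * (30 * K ^ 3 * D) ≤
        ∑ ε, Φ ε := by
      calc ((univ.filter (fun ε => ¬ Φ ε ≤ 30 * K ^ 3 * D)).card : ℝ) * (30 * K ^ 3 * D) =
          ∑ ε ∈ univ.filter (fun ε => ¬ Φ ε ≤ 30 * K ^ 3 * D), (30 * K ^ 3 * D) := by
            rw [Finset.sum_const, nsmul_eq_mul]
        _ ≤ ∑ ε ∈ univ.filter (fun ε => ¬ Φ ε ≤ 30 * K ^ 3 * D), Φ ε := by
            apply Finset.sum_le_sum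
            intro ε hε
            have := (Finset.mem_filter.1 hε).2
            linarith
        _ ≤ ∑ ε, Φ ε := Finset.sum_le_sum_of_subset_of_nonneg (Finset.subset_univ _)
            (fun ε _ _ => hΦ0 ε)
    have h3 : 0 < K ^ 3 * D := by positivity
    have h5 : ((univ.filter (fun ε => ¬ Φ ε ≤ 30 * K ^ 3 * D)).card : ℝ) ≤ 2 ^ k / 2 := by
      by_contra hcon
      rw [not_le] at hcon
      have : (2 : ℝ) ^ k / 2 * (30 * (K ^ 3 * D)) <
          ((univ.filter (fun ε => ¬ Φ ε ≤ 30 * K ^ 3 * D)).card : ℝ) * (30 * (K ^ 3 * D)) :=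
        mul_lt_mul_of_pos_right hcon (by positivity)
      nlinarith
    linarith
  -- the remainder
  let rem : (J → Bool) → Fin m → ℝ := fun ε j => F ε j - tau s (F ε j)
  let w : (J → Bool) → E d := fun ε => Lam c a (rem ε)
  have hw : ∀ ε ∈ G, ‖w ε‖ ^ 2 ≤ 2 / 3 * K ^ 3 * D / s ^ 4 := by
    intro ε hε
    have hε' : Φ ε ≤ 30 * K ^ 3 * D := (Finset.mem_filter.1 hε).2
    calc ‖w ε‖ ^ 2 ≤ ∑ j, c j * rem ε j ^ 2 := hnorm (rem ε)
      _ ≤ ∑ j, c j * (F ε j ^ 6 / (45 * s ^ 4)) := by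
          apply Finset.sum_le_sum
          intro j _
          exact mul_le_mul_of_nonneg_left (tau_rem hs _) (hL.1 j)
      _ = Φ ε / (45 * s ^ 4) := by
          simp only [Φ]
          rw [Finset.sum_div]
          apply Finset.sum_congr rfl
          intro j _
          ring
      _ ≤ (30 * K ^ 3 * D) / (45 * s ^ 4) := by
          apply div_le_div_of_nonneg_right hε' (by positivity)
      _ = 2 / 3 * K ^ 3 * D / s ^ 4 := by
          field_simp
          ring
  -- parameters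
  set r : ℝ := 10 * Real.sqrt (D / K) with hr
  have hr0 : 0 < r := by rw [hr]; positivity
  have hr2 : r ^ 2 = 100 * (D / K) := by
    rw [hr, mul_pow, Real.sq_sqrt (by positivity)]; norm_num
  set κ : ℝ := s / (2 * r) with hκ
  have hκ0 : 0 < κ := by rw [hκ]; positivity
  set R : ℝ := Real.sqrt (2 / 3 * K ^ 3 * D / s ^ 4) with hR
  have hR0 : 0 ≤ R := Real.sqrt_nonneg _
  have hR2 : R ^ 2 = 2 / 3 * K ^ 3 * D / s ^ 4 := Real.sq_sqrt (by positivity)
  have hρ2 : (R / κ) ^ 2 = 800 / 3 * K / 531441 := by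
    rw [div_pow, hR2, hκ, div_pow, mul_pow, hr2]
    have : 2 / 3 * K ^ 3 * D / s ^ 4 / (s ^ 2 / (2 ^ 2 * (100 * (D / K)))) =
        (800 / 3 * K ^ 2 * D ^ 2) / s ^ 6 := by
      field_simp
      ring
    rw [this, hs6]
    field_simp
  obtain ⟨F0, hF0, hcov⟩ := hC d m c a hL (R / κ) r (by positivity) hr0
  have hF0' : (F0.card : ℝ) ≤ Real.exp (K / 50) := by
    refine hF0.trans (Real.exp_le_exp.2 ?_)
    rw [hρ2, hr2]
    have : 9 * D / (8 * (100 * (D / K))) = 9 / 800 * K := by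
      field_simp
      ring
    rw [this]
    linarith
  -- the choice of the centres
  have hch : ∀ ε ∈ G, ∃ y ∈ F0, ∃ t : Fin m → ℝ, (∀ j, |t j| ≤ 2 * r) ∧
      κ⁻¹ • w ε - y = Lam c a t := by
    intro ε hε
    apply hcov
    rw [norm_smul, Real.norm_eq_abs, abs_of_pos (inv_pos.2 hκ0)]
    have h1 : ‖w ε‖ ≤ R := by
      apply Real.le_sqrt_of_sq_le
      exact hw ε hε
    rw [div_eq_mul_inv, mul_comm]
    exact mul_le_mul_of_nonneg_right h1 (inv_pos.2 hκ0).le
  choose! y hy t ht hyt using hch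
  have hGne : G.Nonempty := by
    rw [← Finset.card_pos]
    have : (0 : ℝ) < G.card := lt_of_lt_of_le (by positivity) hG
    exact_mod_cast this
  have hF0ne : F0.Nonempty := by
    obtain ⟨ε, hε⟩ := hGne
    exact ⟨y ε, hy ε hε⟩
  obtain ⟨z, hz, hfib⟩ := Finset.exists_le_card_fiber_of_nsmul_le_card_of_maps_to
    (s := G) (t := F0) (f := y) (b := (2 : ℝ) ^ k / 2 * Real.exp (-K / 50)) hy hF0ne (by
      rw [nsmul_eq_mul]
      calc (F0.card : ℝ) * ((2 : ℝ) ^ k / 2 * Real.exp (-K / 50)) ≤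
          Real.exp (K / 50) * ((2 : ℝ) ^ k / 2 * Real.exp (-K / 50)) := by
            apply mul_le_mul_of_nonneg_right hF0' (by positivity)
        _ = (2 : ℝ) ^ k / 2 * (Real.exp (K / 50) * Real.exp (-K / 50)) := by ring
        _ = (2 : ℝ) ^ k / 2 := by
            rw [← Real.exp_add]
            have : K / 50 + -K / 50 = 0 := by ring
            rw [this, Real.exp_zero, mul_one]
        _ ≤ G.card := hG)
  obtain ⟨α, hα, β, hβ, hαβ⟩ := hH J _ h4 hfib
  rw [Finset.mem_filter] at hα hβ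
  refine ⟨fun g => (sg (α g) - sg (β g)) / 2, ?_, ?_,
    fun j => (tau s (F α j) - tau s (F β j)) / 2 + κ * ((t α j - t β j) / 2), ?_, ?_⟩
  · intro g
    exact sg_sub _ _
  · refine hαβ.trans ?_
    apply mul_le_mul_of_nonneg_left _ (by norm_num)
    have : (univ.filter fun g => α g ≠ β g) ⊆
        (univ.filter fun g => (sg (α g) - sg (β g)) / 2 ≠ 0) := by
      intro g hg
      rw [Finset.mem_filter] at hg ⊢
      exact ⟨Finset.mem_univ _, sg_sub_ne _ _ hg.2⟩
    exact_mod_cast Finset.card_le_card this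
  · intro j
    have h1 := tau_abs hs (F α j)
    have h2 := tau_abs hs (F β j)
    have h3 := ht α hα.1 j
    have h5 := ht β hβ.1 j
    have h6 : κ * (2 * r) = s := by rw [hκ]; field_simp
    have h7 : |κ * ((t α j - t β j) / 2)| ≤ s := by
      rw [abs_mul, abs_of_pos hκ0, ← h6]
      apply mul_le_mul_of_nonneg_left _ hκ0.le
      rw [abs_le] at h3 h5 ⊢
      constructor <;> linarith
    rw [abs_le] at h1 h2 h7 ⊢
    constructor <;> linarith
  · have hlhs : ∑ g, ((sg (α g) - sg (β g)) / 2) • ∑ j, (c j * f g j) • a j =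
        Lam c a (fun j => (F α j - F β j) / 2) := by
      have := Lam_sum c a (fun g => (sg (α g) - sg (β g)) / 2) f
      unfold Lam at this ⊢
      rw [this]
      apply Finset.sum_congr rfl
      intro j _
      congr 2
      simp only [F]
      rw [← Finset.sum_sub_distrib, Finset.sum_div]
      apply Finset.sum_congr rfl
      intro g _
      ring
    rw [hlhs]
    change _ = Lam c a (fun j => (tau s (F α j) - tau s (F β j)) / 2 + κ * ((t α j - t β j) / 2))
    have e1 : Lam c a (fun j => (F α j - F β j) / 2) =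
        Lam c a (fun j => (tau s (F α j) - tau s (F β j)) / 2) +
          (1 / 2 : ℝ) • (w α - w β) := by
      simp only [w]
      rw [← Lam_sub, ← Lam_smul, ← Lam_add]
      unfold Lam
      apply Finset.sum_congr rfl
      intro j _
      congr 2
      simp only [rem]
      ring
    have e2 : w α - w β = κ • (Lam c a (t α) - Lam c a (t β)) := by
      have h8 := hyt α hα.1
      have h9 := hyt β hβ.1
      rw [← h8, ← h9, hα.2, hβ.2]
      rw [sub_sub_sub_cancel_right, ← smul_sub, smul_smul, mul_inv_cancel₀ hκ0.ne', one_smul]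
    rw [e1, e2, ← Lam_sub, ← Lam_smul, ← Lam_smul, ← Lam_add]
    unfold Lam
    apply Finset.sum_congr rfl
    intro j _
    congr 2
    ring

end Pool.Agent.Run7.h931.ZS
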