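import Pool.Agent.H172R2.ZS.LEW
import Pool.Agent.H172R2.ZS.BAS
import Pool.Agent.H172R2.ZS.ONE
import Pool.Agent.H172R2.ZS.DET
import Pool.Agent.H172R2.ZS.MAP
import Pool.Agent.H172R2.ZS.GAU
import Pool.Agent.H172R2.GS.HAM
import Pool.Agent.Run7.h931.ZS.M6
import Pool.Agent.Run7.h931.ZS.CVR
import Pool.Agent.Run7.h931.ZS.PC
import Pool.Agent.Run7.h931.ZS.Main

/-!
# Zonoid Spencer: arbitrarily many vectors in an arbitrary zonotope
-/

set_option autoImplicit false

open Finset
open scoped RealInnerProductSpace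

namespace Pool.Agent.Run7.h931.ZS

open Pool.Agent.H172R2.ZS

/-- the colouring theorem in Lewis position, all steps together -/
theorem main : S_MAIN :=
  MAIN_ok (PC_ok M6_ok BAS_ok (CVR_ok (GAU_ok (MAP_ok ONE_ok BAS_ok DET_ok)))
    Pool.Agent.H172R2.GS.HAM_ok)

/-- at most `k` vectors of the zonotope spanned by `v` can be balanced inside `B` times the
zonotope -/
def HD {V : Type} [AddCommGroup V] [Module ℝ V] {m : ℕ} (v : Fin m → V) (B : ℝ) (k : ℕ) : Prop :=
  ∀ (J : Type) [Fintype J] [DecidableEq J] (f : J → Fin m → ℝ), Fintype.card J ≤ k →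
    (∀ g j, |f g j| ≤ 1) →
    ∃ ε : J → ℝ, (∀ g, ε g = 1 ∨ ε g = -1) ∧ ∃ t : Fin m → ℝ, (∀ j, |t j| ≤ B) ∧
      ∑ g, ε g • ∑ j, f g j • v j = ∑ j, t j • v j

/-- spanning zonotopes -/
theorem HD_span : ∃ C : ℝ, 0 < C ∧ ∀ (d m : ℕ) (v : Fin m → E d),
    (∀ x : E d, (∀ j, ⟪v j, x⟫ = 0) → x = 0) → HD v (C * Real.sqrt d) d := by
  obtain ⟨C, hC, h⟩ := main
  refine ⟨C, hC, ?_⟩
  intro d m v hv J _ _ f hJ hf
  obtain ⟨L, hL⟩ := LEW_ok d m v hv
  have hlew : Lew (fun j => ‖L (v j)‖) (fun j => ‖L (v j)‖⁻¹ • L (v j)) := by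
    refine ⟨fun j => norm_nonneg _, ?_, ?_⟩
    · intro j
      by_cases h0 : ‖L (v j)‖ = 0
      · simp [h0]
      · rw [norm_smul, norm_inv, norm_norm, inv_mul_cancel₀ h0]
        ring
    · intro x
      rw [← hL x]
      apply Finset.sum_congr rfl
      intro j _
      rw [real_inner_smul_left]
      by_cases h0 : ‖L (v j)‖ = 0
      · simp [h0]
      · field_simp
  have hca : ∀ j (s : ℝ), (‖L (v j)‖ * s) • (‖L (v j)‖⁻¹ • L (v j)) = s • L (v j) := by
    intro j s
    by_cases h0 : ‖L (v j)‖ = 0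
    · have : L (v j) = 0 := norm_eq_zero.1 h0
      simp [this]
    · rw [smul_smul]
      congr 1
      field_simp
  obtain ⟨ε, hε, t, ht, hsum⟩ := h d m _ _ hlew J f hJ hf
  refine ⟨ε, hε, t, ?_, ?_⟩
  · intro j
    refine (ht j).trans ?_
    rcases Nat.eq_zero_or_pos (Fintype.card J) with h0 | h0
    · rw [h0, Nat.cast_zero, Real.zero_rpow (by norm_num), mul_zero]
      positivity
    · have hd0 : (0 : ℝ) < d := by
        exact_mod_cast lt_of_lt_of_le h0 hJ
      have h1 : (Fintype.card J : ℝ) ^ (1 / 6 : ℝ) ≤ (d : ℝ) ^ (1 / 6 : ℝ) := by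
        apply Real.rpow_le_rpow (Nat.cast_nonneg _) _ (by norm_num)
        exact_mod_cast hJ
      have h2 : (d : ℝ) ^ (1 / 3 : ℝ) * (d : ℝ) ^ (1 / 6 : ℝ) = Real.sqrt d := by
        rw [← Real.rpow_add hd0, Real.sqrt_eq_rpow]
        norm_num
      calc C * (d : ℝ) ^ (1 / 3 : ℝ) * (Fintype.card J : ℝ) ^ (1 / 6 : ℝ) ≤
          C * (d : ℝ) ^ (1 / 3 : ℝ) * (d : ℝ) ^ (1 / 6 : ℝ) :=
            mul_le_mul_of_nonneg_left h1 (by positivity)
        _ = C * Real.sqrt d := by rw [mul_assoc, h2]
  · simp only [hca] at hsum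
    apply L.injective
    rw [map_sum, map_sum]
    simp only [map_smul, map_sum]
    exact hsum

/-- a relation with at most `dim V` fractional coefficients -/
theorem frac {V : Type} [AddCommGroup V] [Module ℝ V] [FiniteDimensional ℝ V] {n : ℕ}
    (u : Fin n → V) : ∃ x : Fin n → ℝ, (∀ i, |x i| ≤ 1) ∧ ∑ i, x i • u i = 0 ∧
      (univ.filter fun i => |x i| < 1).card ≤ Module.finrank ℝ V := by
  classical
  have key : ∀ (N : ℕ) (x : Fin n → ℝ), (∀ i, |x i| ≤ 1) → ∑ i, x i • u i = 0 →
      (univ.filter fun i => |x i| < 1).card = N →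
      ∃ x : Fin n → ℝ, (∀ i, |x i| ≤ 1) ∧ ∑ i, x i • u i = 0 ∧
        (univ.filter fun i => |x i| < 1).card ≤ Module.finrank ℝ V := by
    intro N
    induction N using Nat.strong_induction_on with
    | _ N ih =>
      intro x hx hxu hN
      rcases le_or_gt N (Module.finrank ℝ V) with hle | hgt
      · exact ⟨x, hx, hxu, hN.trans_le hle⟩
      have hdep : ¬ LinearIndependent ℝ (fun i : {i // |x i| < 1} => u i.1) := by
        intro hli
        have := hli.fintype_card_le_finrank
        rw [Fintype.card_subtype] at this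
        omega
      rw [Fintype.not_linearIndependent_iff] at hdep
      obtain ⟨z, hz, i0, hi0⟩ := hdep
      set Z : Fin n → ℝ := fun i => if h : |x i| < 1 then z ⟨i, h⟩ else 0 with hZ
      have hZu : ∑ i, Z i • u i = 0 := by
        rw [hZ, sum_ext (fun i => |x i| < 1) z u]
        exact hz
      have hZ0 : Z i0.1 ≠ 0 := by
        simp only [hZ, i0.2, dite_true]
        exact hi0
      have hZf : ∀ i, Z i ≠ 0 → |x i| < 1 := by
        intro i hi
        by_contra hcon
        apply hi
        simp only [hZ, hcon, dite_false]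
      -- hitting times
      let T : Fin n → ℝ := fun i => (|Z i| - Z i * x i) / Z i ^ 2
      obtain ⟨i1, hi1, hmin⟩ := Finset.exists_min_image (univ.filter fun i => Z i ≠ 0) T
        ⟨i0.1, by simp [hZ0]⟩
      have hi1' : Z i1 ≠ 0 := (Finset.mem_filter.1 hi1).2
      set lam := T i1 with hlam
      have hT0 : ∀ i, Z i ≠ 0 → 0 ≤ T i := by
        intro i hi
        apply div_nonneg _ (sq_nonneg _)
        have h1 : Z i * x i ≤ |Z i| * |x i| := by
          rw [← abs_mul]
          exact le_abs_self _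
        have h2 : |Z i| * |x i| ≤ |Z i| * 1 := mul_le_mul_of_nonneg_left (hx i) (abs_nonneg _)
        linarith
      have hlam0 : 0 ≤ lam := hT0 i1 hi1'
      have hTi : ∀ i, Z i ≠ 0 → |x i + T i * Z i| = 1 := by
        intro i hi
        have h1 : x i + T i * Z i = |Z i| / Z i := by
          simp only [T]
          field_simp
          ring
        rw [h1, abs_div, abs_abs, div_self (abs_ne_zero.2 hi)]
      have hnew : ∀ i, |x i + lam * Z i| ≤ 1 := by
        intro i
        by_cases hi : Z i = 0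
        · rw [hi, mul_zero, add_zero]
          exact hx i
        · have h1 : lam ≤ T i := hmin i (by simp [hi])
          have h2 := hTi i hi
          have h3 := hx i
          rcases lt_or_gt_of_ne hi with hneg | hpos
          · have h4 : T i * Z i ≤ lam * Z i := mul_le_mul_of_nonpos_right h1 hneg.le
            have h5 : lam * Z i ≤ 0 := mul_nonpos_of_nonneg_of_nonpos hlam0 hneg.le
            have h6 := (abs_le.1 h2.le).1
            rw [abs_le] at h3 ⊢
            constructor <;> linarith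
          · have h4 : lam * Z i ≤ T i * Z i := mul_le_mul_of_nonneg_right h1 hpos.le
            have h5 : 0 ≤ lam * Z i := mul_nonneg hlam0 hpos.le
            have h6 := (abs_le.1 h2.le).2
            rw [abs_le] at h3 ⊢
            constructor <;> linarith
      have hsub : (univ.filter fun i => |x i + lam * Z i| < 1) ⊂
          (univ.filter fun i => |x i| < 1) := by
        rw [Finset.ssubset_iff_of_subset]
        · refine ⟨i1, ?_, ?_⟩
          · simp [hZf i1 hi1']
          · simp only [Finset.mem_filter, Finset.mem_univ, true_and, not_lt]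
            rw [hlam, hTi i1 hi1']
        · intro i hi
          simp only [Finset.mem_filter, Finset.mem_univ, true_and] at hi ⊢
          by_cases h0 : Z i = 0
          · rw [h0, mul_zero, add_zero] at hi
            exact hi
          · exact hZf i h0
      apply ih _ _ (fun i => x i + lam * Z i) hnew _ rfl
      · rw [← hN]
        exact Finset.card_lt_card hsub
      · have : ∀ i, (x i + lam * Z i) • u i = x i • u i + lam • (Z i • u i) := by
          intro i
          rw [add_smul, smul_smul]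
        rw [Finset.sum_congr rfl fun i _ => this i, Finset.sum_add_distrib, ← Finset.smul_sum,
          hxu, hZu, smul_zero, add_zero]
  exact key _ (fun _ => 0) (fun i => by simp) (by simp) rfl

/-- rounding of dyadic points -/
theorem round {V : Type} [AddCommGroup V] [Module ℝ V] {m : ℕ} (v : Fin m → V) (B : ℝ) (k : ℕ)
    (hB : 0 ≤ B) (h : HD v B k) : ∀ (N : ℕ) (J : Type) [Fintype J] [DecidableEq J]
    (f : J → Fin m → ℝ) (a : J → ℕ), Fintype.card J ≤ k → (∀ g j, |f g j| ≤ 1) →
    (∀ g, a g ≤ 2 ^ N) →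
    ∃ ε : J → ℝ, (∀ g, ε g = 1 ∨ ε g = -1) ∧ ∃ t : Fin m → ℝ,
      (∀ j, |t j| ≤ B * (2 - 2 / 2 ^ N)) ∧
      ∑ g, (ε g - (2 * (a g : ℝ) / 2 ^ N - 1)) • ∑ j, f g j • v j = ∑ j, t j • v j := by
  classical
  intro N
  induction N with
  | zero =>
    intro J _ _ f a _ _ ha
    refine ⟨fun g => 2 * (a g : ℝ) - 1, ?_, fun _ => 0, ?_, ?_⟩
    · intro g
      have h1 := ha g
      rw [pow_zero] at h1
      have h2 : a g = 0 ∨ a g = 1 := by omega
      rcases h2 with h2 | h2
      · right
        simp only [h2]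
        norm_num
      · left
        simp only [h2]
        norm_num
    · intro j
      simp
    · simp
  | succ N ih =>
    intro J _ _ f a hJ hf ha
    obtain ⟨e, he, t1, ht1, hs1⟩ := h {g // Odd (a g)} (fun g => f g.1)
      ((Fintype.card_subtype_le _).trans hJ) (fun g j => hf g.1 j)
    let η : J → ℝ := fun g => if hg : Odd (a g) then e ⟨g, hg⟩ else 0
    have hη : ∀ g, ∃ b : ℕ, b ≤ 2 ^ N ∧ (a g : ℝ) + η g = 2 * (b : ℝ) := by
      intro g
      have hag := ha g
      rw [pow_succ] at hag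
      by_cases hg : Odd (a g)
      · obtain ⟨c, hc⟩ := hg
        have hg : Odd (a g) := ⟨c, hc⟩
        have e1 : η g = e ⟨g, hg⟩ := by simp only [η, hg, dite_true]
        rcases he ⟨g, hg⟩ with h1 | h1
        · refine ⟨c + 1, by omega, ?_⟩
          rw [e1, h1, hc]
          push_cast
          ring
        · refine ⟨c, by omega, ?_⟩
          rw [e1, h1, hc]
          push_cast
          ring
      · have e1 : η g = 0 := by simp only [η, hg, dite_false]
        rw [Nat.not_odd_iff_even] at hg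
        obtain ⟨c, hc⟩ := hg
        refine ⟨c, by omega, ?_⟩
        rw [e1, hc]
        push_cast
        ring
    choose b hb1 hb2 using hη
    obtain ⟨ε, hε, t2, ht2, hs2⟩ := ih J f b hJ hf hb1
    refine ⟨ε, hε, fun j => t2 j + (1 / 2 ^ N) * t1 j, ?_, ?_⟩
    · intro j
      have h1 := ht1 j
      have h2 := ht2 j
      have h3 : |(1 / 2 ^ N) * t1 j| ≤ (1 / 2 ^ N) * B := by
        rw [abs_mul, abs_of_nonneg (by positivity : (0 : ℝ) ≤ 1 / 2 ^ N)]
        exact mul_le_mul_of_nonneg_left h1 (by positivity)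
      calc |t2 j + (1 / 2 ^ N) * t1 j| ≤ |t2 j| + |(1 / 2 ^ N) * t1 j| := abs_add_le _ _
        _ ≤ B * (2 - 2 / 2 ^ N) + (1 / 2 ^ N) * B := add_le_add h2 h3
        _ = B * (2 - 2 / 2 ^ (N + 1)) := by
          rw [pow_succ]
          field_simp
          ring
    · have e1 : ∀ g, (ε g - (2 * (a g : ℝ) / 2 ^ (N + 1) - 1)) • ∑ j, f g j • v j =
          (ε g - (2 * (b g : ℝ) / 2 ^ N - 1)) • ∑ j, f g j • v j +
          (1 / 2 ^ N : ℝ) • (η g • ∑ j, f g j • v j) := by
        intro g
        rw [smul_smul, ← add_smul]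
        congr 1
        have h1 : (a g : ℝ) = 2 * (b g : ℝ) - η g := by linarith [hb2 g]
        rw [h1, pow_succ]
        field_simp
        ring
      rw [Finset.sum_congr rfl fun g _ => e1 g, Finset.sum_add_distrib, hs2, ← Finset.smul_sum]
      have e2 : ∑ g, η g • ∑ j, f g j • v j = ∑ j, t1 j • v j := by
        rw [← hs1]
        exact sum_ext (fun g => Odd (a g)) e (fun g => ∑ j, f g j • v j)
      rw [e2, Finset.smul_sum, ← Finset.sum_add_distrib]
      apply Finset.sum_congr rfl
      intro j _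
      rw [smul_smul, add_smul]

/-- arbitrarily many vectors -/
theorem many {V : Type} [AddCommGroup V] [Module ℝ V] [FiniteDimensional ℝ V] {m : ℕ}
    (v : Fin m → V) (B : ℝ) (hB : 0 ≤ B) (h : HD v B (Module.finrank ℝ V)) {n : ℕ}
    (f : Fin n → Fin m → ℝ) (hf : ∀ i j, |f i j| ≤ 1) :
    ∃ ε : Fin n → ℝ, (∀ i, ε i = 1 ∨ ε i = -1) ∧ ∃ t : Fin m → ℝ, (∀ j, |t j| ≤ 2 * B + 1) ∧
      ∑ i, ε i • ∑ j, f i j • v j = ∑ j, t j • v j := by
  classical
  obtain ⟨x, hx, hxu, hcard⟩ := frac (fun i => ∑ j, f i j • v j)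
  have hJ : Fintype.card {i // |x i| < 1} ≤ Module.finrank ℝ V := by
    rw [Fintype.card_subtype]
    exact hcard
  let y : {i // |x i| < 1} → ℝ := fun g => (x g.1 + 1) / 2 * 2 ^ (n + 1)
  have hy0 : ∀ g, 0 ≤ y g := by
    intro g
    have := (abs_le.1 (hx g.1)).1
    have h1 : 0 ≤ (x g.1 + 1) / 2 := by linarith
    positivity
  obtain ⟨e, he, t1, ht1, hs1⟩ := round v B _ hB h (n + 1) {i // |x i| < 1} (fun g => f g.1)
    (fun g => ⌊y g⌋₊) hJ (fun g j => hf g.1 j) (by
      intro g
      have h1 : y g ≤ 2 ^ (n + 1) := by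
        have := (abs_le.1 (hx g.1)).2
        have h2 : (x g.1 + 1) / 2 ≤ 1 := by linarith
        calc y g = (x g.1 + 1) / 2 * 2 ^ (n + 1) := rfl
          _ ≤ 1 * 2 ^ (n + 1) := mul_le_mul_of_nonneg_right h2 (by positivity)
          _ = 2 ^ (n + 1) := one_mul _
      have h2 := (Nat.floor_le (hy0 g)).trans h1
      exact_mod_cast h2)
  let δ : {i // |x i| < 1} → ℝ := fun g => (2 * (⌊y g⌋₊ : ℝ) / 2 ^ (n + 1) - 1) - x g.1
  have hδ : ∀ g, |δ g| ≤ 2 / 2 ^ (n + 1) := by
    intro g
    have h1 := Nat.floor_le (hy0 g)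
    have h2 := (Nat.lt_floor_add_one (y g)).le
    have h3 : x g.1 = 2 * y g / 2 ^ (n + 1) - 1 := by
      simp only [y]
      field_simp
      ring
    have h4 : δ g = 2 / 2 ^ (n + 1) * (⌊y g⌋₊ - y g) := by
      simp only [δ]
      rw [h3]
      ring
    rw [h4, abs_mul, abs_of_nonneg (by positivity : (0 : ℝ) ≤ 2 / 2 ^ (n + 1))]
    have h5 : |(⌊y g⌋₊ : ℝ) - y g| ≤ 1 := by
      rw [abs_le]
      constructor <;> linarith
    calc (2 : ℝ) / 2 ^ (n + 1) * |(⌊y g⌋₊ : ℝ) - y g| ≤ 2 / 2 ^ (n + 1) * 1 :=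
          mul_le_mul_of_nonneg_left h5 (by positivity)
      _ = _ := mul_one _
  refine ⟨fun i => if hi : |x i| < 1 then e ⟨i, hi⟩ else x i, ?_,
    fun j => t1 j + ∑ g, δ g * f g.1 j, ?_, ?_⟩
  · intro i
    by_cases hi : |x i| < 1
    · simp only [hi, dite_true]
      exact he _
    · simp only [hi, dite_false]
      have h1 : |x i| = 1 := le_antisymm (hx i) (not_lt.1 hi)
      rcases eq_or_eq_neg_of_abs_eq h1 with h2 | h2
      · exact Or.inl h2
      · exact Or.inr h2
  · intro j
    have h1 := ht1 j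
    have h2 : |∑ g, δ g * f g.1 j| ≤ 1 := by
      calc |∑ g, δ g * f g.1 j| ≤ ∑ g, |δ g * f g.1 j| := Finset.abs_sum_le_sum_abs _ _
        _ ≤ ∑ _g : {i // |x i| < 1}, (2 / 2 ^ (n + 1) : ℝ) := by
            apply Finset.sum_le_sum
            intro g _
            rw [abs_mul]
            calc |δ g| * |f g.1 j| ≤ 2 / 2 ^ (n + 1) * 1 :=
                  mul_le_mul (hδ g) (hf _ _) (abs_nonneg _) (by positivity)
              _ = _ := mul_one _
        _ = (Fintype.card {i // |x i| < 1} : ℝ) * (2 / 2 ^ (n + 1)) := by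
            rw [Finset.sum_const, nsmul_eq_mul, Finset.card_univ]
        _ ≤ (n : ℝ) * (2 / 2 ^ (n + 1)) := by
            apply mul_le_mul_of_nonneg_right _ (by positivity)
            have : Fintype.card {i // |x i| < 1} ≤ Fintype.card (Fin n) :=
              Fintype.card_subtype_le _
            rw [Fintype.card_fin] at this
            exact_mod_cast this
        _ ≤ 1 := by
            rw [pow_succ]
            have h3 : (n : ℝ) < 2 ^ n := by exact_mod_cast Nat.lt_two_pow_self
            have h4 : (n : ℝ) * (2 / (2 ^ n * 2)) = n / 2 ^ n := by field_simp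
            rw [h4, div_le_one (by positivity)]
            exact h3.le
    have h3 : B * (2 - 2 / 2 ^ (n + 1)) ≤ 2 * B := by
      have : (0 : ℝ) ≤ 2 / 2 ^ (n + 1) := by positivity
      nlinarith
    calc |t1 j + ∑ g, δ g * f g.1 j| ≤ |t1 j| + |∑ g, δ g * f g.1 j| := abs_add_le _ _
      _ ≤ 2 * B + 1 := by linarith
  · have e1 : ∀ i, (if hi : |x i| < 1 then e ⟨i, hi⟩ else x i) • ∑ j, f i j • v j =
        x i • ∑ j, f i j • v j +
        (if hi : |x i| < 1 then (fun g : {i // |x i| < 1} => e g - x g.1) ⟨i, hi⟩ else 0) •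
          ∑ j, f i j • v j := by
      intro i
      rw [← add_smul]
      congr 1
      by_cases hi : |x i| < 1
      · simp only [hi, dite_true]
        ring
      · simp only [hi, dite_false, add_zero]
    rw [Finset.sum_congr rfl fun i _ => e1 i, Finset.sum_add_distrib, hxu, zero_add,
      sum_ext (fun i => |x i| < 1) (fun g => e g - x g.1) (fun i => ∑ j, f i j • v j)]
    have e2 : ∀ g : {i // |x i| < 1}, (e g - x g.1) • ∑ j, f g.1 j • v j =
        (e g - (2 * (⌊y g⌋₊ : ℝ) / 2 ^ (n + 1) - 1)) • ∑ j, f g.1 j • v j +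
        δ g • ∑ j, f g.1 j • v j := by
      intro g
      rw [← add_smul]
      congr 1
      simp only [δ]
      ring
    rw [Finset.sum_congr rfl fun g _ => e2 g, Finset.sum_add_distrib, hs1]
    have e3 : ∑ g : {i // |x i| < 1}, δ g • ∑ j, f g.1 j • v j =
        ∑ j, (∑ g : {i // |x i| < 1}, δ g * f g.1 j) • v j := by
      simp_rw [Finset.smul_sum, Finset.sum_smul, smul_smul]
      rw [Finset.sum_comm]
    rw [e3, ← Finset.sum_add_distrib]
    apply Finset.sum_congr rfl
    intro j _
    rw [add_smul]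

/-- the final statement -/
theorem final : ∃ C : ℝ, 0 < C ∧
      ∀ (d m : ℕ) (v : Fin m → (Fin d → ℝ)) (n : ℕ) (u : Fin n → (Fin d → ℝ)),
        (∀ i, ∃ t : Fin m → ℝ, (∀ j, t j ∈ Set.Icc (-1 : ℝ) 1) ∧
            u i = ∑ j, t j • v j) →
        ∃ ε : Fin n → ℝ, (∀ i, ε i = 1 ∨ ε i = -1) ∧
          ∃ s : Fin m → ℝ, (∀ j, s j ∈ Set.Icc (-1 : ℝ) 1) ∧
            ∑ i, ε i • u i = (C * Real.sqrt d) • ∑ j, s j • v j := by
  classical
  obtain ⟨C, hC, h⟩ := HD_span
  refine ⟨2 * C + 1, by positivity, ?_⟩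
  intro d m v n u hu
  choose f hf hu using hu
  set W : Submodule ℝ (Fin d → ℝ) := Submodule.span ℝ (Set.range v) with hW
  set k := Module.finrank ℝ W with hk
  have hkd : k ≤ d := by
    have := Submodule.finrank_le W
    simpa using this
  have hfr : Module.finrank ℝ W = Module.finrank ℝ (E k) := by
    simp [hk]
  let e : W ≃ₗ[ℝ] E k := LinearEquiv.ofFinrankEq W (E k) hfr
  let T : E k →ₗ[ℝ] (Fin d → ℝ) := W.subtype ∘ₗ e.symm.toLinearMap
  have hvW : ∀ j, v j ∈ W := fun j => Submodule.subset_span ⟨j, rfl⟩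
  let v' : Fin m → E k := fun j => e ⟨v j, hvW j⟩
  have hT : ∀ j, T (v' j) = v j := by
    intro j
    simp [T, v']
  have hspan : Submodule.span ℝ (Set.range v') = ⊤ := by
    rw [eq_top_iff]
    intro y _
    have h1 : ∀ w : Fin d → ℝ, ∀ hw : w ∈ W, e ⟨w, hw⟩ ∈ Submodule.span ℝ (Set.range v') := by
      intro w hw
      induction hw using Submodule.span_induction with
      | mem x hx =>
        obtain ⟨j, rfl⟩ := hx
        exact Submodule.subset_span ⟨j, rfl⟩
      | zero =>
        have : e ⟨0, W.zero_mem⟩ = 0 := by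
          have : (⟨0, W.zero_mem⟩ : W) = 0 := rfl
          rw [this, map_zero]
        rw [this]
        exact Submodule.zero_mem _
      | add x z hx hz hx' hz' =>
        have : e ⟨x + z, W.add_mem hx hz⟩ = e ⟨x, hx⟩ + e ⟨z, hz⟩ := by
          rw [← map_add]; rfl
        rw [this]
        exact Submodule.add_mem _ hx' hz'
      | smul c x hx hx' =>
        have : e ⟨c • x, W.smul_mem c hx⟩ = c • e ⟨x, hx⟩ := by
          rw [← map_smul]; rfl
        rw [this]
        exact Submodule.smul_mem _ _ hx'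
    have h2 := h1 (e.symm y).1 (e.symm y).2
    simpa using h2
  have horth : ∀ x : E k, (∀ j, ⟪v' j, x⟫ = 0) → x = 0 := by
    intro x hx
    have h1 : ∀ y ∈ Submodule.span ℝ (Set.range v'), ⟪y, x⟫ = 0 := by
      intro y hy
      induction hy using Submodule.span_induction with
      | mem y hy =>
        obtain ⟨j, rfl⟩ := hy
        exact hx j
      | zero => exact inner_zero_left _
      | add y z _ _ hy hz => rw [inner_add_left, hy, hz, add_zero]
      | smul c y _ hy => rw [real_inner_smul_left, hy, mul_zero]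
    have h2 := h1 x (by rw [hspan]; trivial)
    exact inner_self_eq_zero.1 h2
  have hHD := h k m v' horth
  have hfin : Module.finrank ℝ (E k) = k := by simp
  obtain ⟨ε, hε, t, ht, hs⟩ := many v' (C * Real.sqrt k) (by positivity) (by rw [hfin]; exact hHD)
    f (fun i j => abs_le.2 ⟨(hf i j).1, (hf i j).2⟩)
  have hs' : ∑ i, ε i • u i = ∑ j, t j • v j := by
    have h1 := congrArg T hs
    simp only [map_sum, map_smul, hT] at h1
    rw [← h1]
    apply Finset.sum_congr rfl
    intro i _
    rw [hu i]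
  refine ⟨ε, hε, ?_⟩
  rcases Nat.eq_zero_or_pos k with h0 | h0
  · -- everything vanishes
    have hv0 : ∀ j, v j = 0 := by
      intro j
      have h1 : (⟨v j, hvW j⟩ : W) = 0 := by
        have : Subsingleton W := Module.finrank_zero_iff.1 (hk ▸ h0)
        exact Subsingleton.elim _ _
      exact congrArg Subtype.val h1
    refine ⟨fun _ => 0, fun _ => by constructor <;> norm_num, ?_⟩
    rw [hs']
    simp [hv0]
  · have hd1 : (1 : ℝ) ≤ Real.sqrt d := by
      rw [Real.one_le_sqrt]
      exact_mod_cast h0.trans_le hkd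
    have hkd' : Real.sqrt k ≤ Real.sqrt d := Real.sqrt_le_sqrt (by exact_mod_cast hkd)
    set M := (2 * C + 1) * Real.sqrt d with hM
    have hM0 : 0 < M := by positivity
    have ht' : ∀ j, |t j| ≤ M := by
      intro j
      refine (ht j).trans ?_
      rw [hM]
      nlinarith [mul_le_mul_of_nonneg_left hkd' hC.le]
    refine ⟨fun j => t j / M, ?_, ?_⟩
    · intro j
      have := ht' j
      rw [abs_le] at this
      constructor
      · rw [le_div_iff₀ hM0]; linarith
      · rw [div_le_one hM0]; linarith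
    · rw [hs', Finset.smul_sum]
      apply Finset.sum_congr rfl
      intro j _
      rw [smul_smul]
      congr 1
      field_simp

end Pool.Agent.Run7.h931.ZS
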